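import Pool.Agent.helper22.RG9.Spec

/-!
# Project rg9, row CJG: conjugation of the logarithms by root elements
-/

set_option autoImplicit false

namespace Pool.Agent.RG9

open Matrix Pool.Agent.H48SL Pool.Agent.UG

theorem CJG_ss {n m : ℕ} {X : Fin m → Fin m → Subgroup (SLZ n)} {i j : Fin m} (hij : i ≠ j) {y : SLZ n} (hy : y ∈ X i j) :
    lg (y ^ n.factorial) ∈ SS (fun i j => LS (X i j)) :=
  Submodule.subset_span (Or.inl ⟨i, j, hij, Submodule.subset_span ⟨y, hy, rfl⟩⟩)

theorem CJG_conj {n : ℕ} (hLGF : LGF_stmt) {x y : SLZ n} (hy : Unp (y ^ n.factorial)) :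
    qg x * lg (y ^ n.factorial) * qg x⁻¹ = lg ((x * y * x⁻¹) ^ n.factorial) := by
  obtain ⟨-, -, -, -, h5, -⟩ := hLGF n
  rw [← (h5 (y ^ n.factorial) x hy).2, conj_pow]

theorem CJG_key {n m : ℕ} (hm : 3 ≤ m) (hGRU : GRU_stmt) (hLGF : LGF_stmt) {X : Fin m → Fin m → Subgroup (SLZ n)}
    (hX : Grad X) {i j k l : Fin m} (hij : i ≠ j) (hkl : k ≠ l) {x y u : SLZ n} (hy : y ∈ X i j) (hu : u ∈ X k l)
    (huy : u * y = y * u) (h : x * y * x⁻¹ = u * y) :
    qg x * lg (y ^ n.factorial) * qg x⁻¹ ∈ SS (fun i j => LS (X i j)) := by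
  have hyU := hGRU n m hm X hX i j hij y hy
  have huU := hGRU n m hm X hX k l hkl u hu
  have hc : Commute u y := huy
  rw [CJG_conj hLGF hyU, h, hc.mul_pow]
  obtain ⟨-, h2, -⟩ := hLGF n
  rw [(h2 (u ^ n.factorial) (y ^ n.factorial) huU hyU (hc.pow_pow _ _)).2]
  exact Submodule.add_mem _ (CJG_ss hkl hu) (CJG_ss hij hy)

theorem CJG (hGRU : GRU_stmt) (hLGF : LGF_stmt) : CJG_stmt := by
  intro n m hm X hX i j k l hij hkl hne x hx Z hZ
  refine Submodule.span_induction (p := fun Z _ => qg x * Z * qg x⁻¹ ∈ SS (fun i j => LS (X i j))) ?_ ?_ ?_ ?_ hZ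
  · rintro Z ⟨y, hy, rfl⟩
    by_cases h1 : l = i
    · -- `x ∈ X k i`, `y ∈ X i j`
      have hkj : k ≠ j := fun h => hne ⟨h, h1⟩
      subst h1
      have hu : x * y * x⁻¹ * y⁻¹ ∈ X k j := by
        rw [hX.gen k l j hkl hij hkj]
        exact Subgroup.subset_closure ⟨x, hx, y, hy, rfl⟩
      exact CJG_key hm hGRU hLGF hX hij hkj hy hu (hX.comm k j l j hkj hij hij.symm hkj _ hu _ hy) (by group)
    · by_cases h2 : k = j
      · -- `x ∈ X j l`, `y ∈ X i j`
        subst h2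
        have hil : i ≠ l := fun h => h1 h.symm
        have hu' : y * x * y⁻¹ * x⁻¹ ∈ X i l := by
          rw [hX.gen i k l hij hkl hil]
          exact Subgroup.subset_closure ⟨y, hy, x, hx, rfl⟩
        have hu : x * y * x⁻¹ * y⁻¹ ∈ X i l := by
          have h3 := (X i l).inv_mem hu'
          have e : (y * x * y⁻¹ * x⁻¹)⁻¹ = x * y * x⁻¹ * y⁻¹ := by group
          rwa [e] at h3
        exact CJG_key hm hGRU hLGF hX hij hil hy hu (hX.comm i l i k hil hij (Ne.symm hil) hij _ hu _ hy) (by group)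
      · -- commuting root groups
        have hc : x * y = y * x := hX.comm k l i j hkl hij h1 h2 x hx y hy
        have hyU := hGRU n m hm X hX i j hij y hy
        rw [CJG_conj hLGF hyU, hc, mul_inv_cancel_right]
        exact CJG_ss hij hy
  · simp
  · intro A B _ _ hA hB
    rw [mul_add, add_mul]
    exact Submodule.add_mem _ hA hB
  · intro c A _ hA
    rw [mul_smul_comm, smul_mul_assoc]
    exact Submodule.smul_mem _ _ hA

end Pool.Agent.RG9
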